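import Pool.Agent.H68.L.R_seed8.Y687.JQ.Stm
import Pool.Agent.H68.L.R_seed8.Y703.CQ.Asy

/-!
# Project JQ: the final asymptotics (adapted from helper703's `CQ.Asy`)
-/

set_option autoImplicit false

open scoped Classical
open Finset Filter

namespace Pool.Agent.Y687.JQ

open Pool.Agent.Y703.CX (sm la jj XX eL zz kk S_SIE eL_tendsto logX_eq rpow_eL HH NN ev_eL one_le_exp
  HH_ge HH_le HH_pos kk_ge kk_le X_pos one_add_log lin_le kap zz_ge zz_pos kap_nonneg kap_pow kap_le)
open Pool.Agent.Y703.CQ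

/-- the main error term -/
theorem sml_mainJ {C : ℝ} (hC : 1 ≤ C) {t : ℝ} (ht : t < 1) : Sml t fun X => (9 * (NN X : ℝ) + 9) ^ kk X *
    (3 ^ (6 * kk X ^ 2) * kap C X) * (X * (1 + Real.log X)) := by
  apply sml_of (C := 4 * C) (a := 1) ht
  filter_upwards [ev_eL 11000] with X hX
  set l := eL X with hl
  have h0 : 0 < eL X := by linarith
  have h1 : 1 ≤ eL X := by linarith
  have hX0 : (0 : ℝ) ≤ X := Nat.cast_nonneg _
  have hN : 9 * (NN X : ℝ) + 9 ≤ Real.exp (5 * l) := by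
    have h2 : (NN X : ℝ) ≤ HH X * Real.log X + 1 := by
      unfold NN
      push_cast
      have := Nat.floor_le (a := (HH X : ℝ) * Real.log X)
        (mul_nonneg (Nat.cast_nonneg _) (Real.log_natCast_nonneg X))
      linarith
    have h3 : (HH X : ℝ) * Real.log X ≤ 2 * Real.exp (4 * l) := by
      rw [logX_eq h0]
      calc (HH X : ℝ) * Real.exp (eL X) ≤ 2 * Real.exp (3 * eL X) * Real.exp (eL X) :=
            mul_le_mul_of_nonneg_right (HH_le h0) (Real.exp_pos _).le
        _ = 2 * Real.exp (4 * l) := by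
            rw [mul_assoc, ← Real.exp_add]
            congr 2
            rw [hl]
            ring
    have h4 : 1 ≤ Real.exp (4 * l) := one_le_exp (by linarith)
    have h5 : (36 : ℝ) ≤ Real.exp l := by
      have := Real.add_one_le_exp l
      linarith
    have h6 : Real.exp (5 * l) = Real.exp (4 * l) * Real.exp l := by
      rw [← Real.exp_add]; congr 1; ring
    rw [h6]
    nlinarith
  have hkk := kk_le h1
  have hkk0 : (0 : ℝ) ≤ kk X := Nat.cast_nonneg _
  have hA : (9 * (NN X : ℝ) + 9) ^ kk X ≤ Real.exp (55 * l ^ 2) := by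
    calc (9 * (NN X : ℝ) + 9) ^ kk X ≤ (Real.exp (5 * l)) ^ kk X := by gcongr
      _ = Real.exp (kk X * (5 * l)) := (Real.exp_nat_mul _ _).symm
      _ ≤ Real.exp (55 * l ^ 2) := by
          apply Real.exp_le_exp.2
          nlinarith
  have hB : (3 : ℝ) ^ (6 * kk X ^ 2) ≤ Real.exp (800 * l ^ 2) := by
    have e : (3 : ℝ) ^ (6 * kk X ^ 2) = Real.exp ((6 * (kk X : ℝ) ^ 2) * Real.log 3) := by
      rw [mul_comm (6 * (kk X : ℝ) ^ 2) (Real.log 3), Real.exp_mul, Real.exp_log (by norm_num)]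
      rw [← Real.rpow_natCast]
      congr 1
      push_cast
      ring
    rw [e]
    apply Real.exp_le_exp.2
    have h2 : Real.log 3 ≤ 1.1 := by
      have h3 : (3 : ℝ) ≤ Real.exp 1.1 := by
        have h4 : (2.7182818283 : ℝ) < Real.exp 1 := Real.exp_one_gt_d9
        have h5 : (1.105 : ℝ) ≤ Real.exp 0.1 := by
          have := Real.quadratic_le_exp_of_nonneg (x := 0.1) (by norm_num)
          norm_num at this ⊢
          linarith
        have h6 : Real.exp 1.1 = Real.exp 1 * Real.exp 0.1 := by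
          rw [← Real.exp_add]; norm_num
        rw [h6]
        nlinarith
      calc Real.log 3 ≤ Real.log (Real.exp 1.1) := Real.log_le_log (by norm_num) h3
        _ = 1.1 := Real.log_exp _
    have h3 : (kk X : ℝ) ^ 2 ≤ 121 * l ^ 2 := by nlinarith
    have h4 : 0 ≤ (kk X : ℝ) ^ 2 := sq_nonneg _
    nlinarith [sq_nonneg l]
  have hK := kap_le hC h1
  have hLg := one_add_log h0
  have hmain : (9 * (NN X : ℝ) + 9) ^ kk X * (3 ^ (6 * kk X ^ 2) * kap C X) *
      (X * (1 + Real.log X)) ≤ Real.exp (55 * l ^ 2) * (Real.exp (800 * l ^ 2) *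
        (2 * C * Real.exp (-l ^ 3 / 12))) * (X * (2 * Real.exp l)) := by
    have := kap_nonneg hC X
    have : 0 ≤ 1 + Real.log X := by
      have := Real.log_natCast_nonneg X
      linarith
    gcongr
  refine hmain.trans ?_
  have e : Real.exp (55 * l ^ 2) * (Real.exp (800 * l ^ 2) *
        (2 * C * Real.exp (-l ^ 3 / 12))) * (X * (2 * Real.exp l)) =
      4 * C * (X * Real.exp (55 * l ^ 2 + 800 * l ^ 2 + -l ^ 3 / 12 + l)) := by
    rw [Real.exp_add, Real.exp_add, Real.exp_add]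
    ring
  rw [e]
  have h9 : 55 * l ^ 2 + 800 * l ^ 2 + -l ^ 3 / 12 + l ≤ -1 * l := by
    have h10 : 11000 * l ^ 2 ≤ l ^ 3 := by
      have : l ^ 3 = l * l ^ 2 := by ring
      rw [this]
      exact mul_le_mul_of_nonneg_right hX (sq_nonneg l)
    nlinarith
  have h11 := Real.exp_le_exp.2 h9
  have hC0 : (0 : ℝ) ≤ 4 * C := by linarith
  gcongr

/-- the pairs of masks -/
noncomputable def prU (𝒰 : Finset (Finset ℕ)) : Finset (Finset ℕ × Finset ℕ) :=
  (𝒰 ×ˢ 𝒰).filter fun e => e.1 ≠ e.2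

/-- the sets with few large split primes on which the product of `e` is not a square -/
noncomputable def few (I K : Finset ℕ) (X z R : ℕ) (e : Finset ℕ) : Finset (Finset ℕ) :=
  (SS I K X).filter fun S => ((la z S).filter fun p => p % 8 = 1 ∧
      ∑ u ∈ e, nr p u ≠ 0).card < 2 * (sm z S).card + R

/-- the sets outside the regular part -/
theorem out_subJ (I K W : Finset ℕ) (𝒰 : Finset (Finset ℕ)) (X z H k R : ℕ) :
    SS I K X \ ((RR I K X z H k (2 * W.card + R)).filter fun S => NdJ R W 𝒰 (sm z S) (la z S)) ⊆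
      ((((((SS I K X).filter fun S => k < S.card) ∪
      ((SS I K X).filter fun S => S.card ≤ k ∧
        X < (∏ p ∈ sm z S, p) * ∏ p ∈ la z S, XX H (jj H p))) ∪
      ((SS I K X).filter fun S => ¬ Set.InjOn (jj H) (la z S : Set ℕ))) ∪
      ((SS I K X).filter fun S => ((la z S).filter fun p => p % 8 = 1).card ≤
        2 * (sm z S).card + (2 * W.card + R) ∨ ∀ p ∈ la z S, p % 8 = 1)) ∪
      ((SS I K X).filter fun S => S.card ≤ k ∧ ¬ Nd (sm z S ∪ W) (la z S))) ∪
      (prU 𝒰).biUnion fun e => few I K X z (2 * W.card + R) (symmDiff e.1 e.2) := by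
  intro S hS
  rw [Finset.mem_sdiff, Finset.mem_filter] at hS
  obtain ⟨h1, h2⟩ := hS
  by_contra hc
  rw [mem_union, mem_union, mem_union, mem_union, mem_union] at hc
  simp only [mem_filter, mem_biUnion] at hc
  push Not at hc
  obtain ⟨⟨⟨⟨⟨c1, c2⟩, c3⟩, c4⟩, c5⟩, c6⟩ := hc
  have d1 : S.card ≤ k := c1 h1
  have d2 := c2 h1 d1
  have d3 := c3 h1
  have d4 := c4 h1
  have d5 := c5 h1 d1
  have hcu : (sm z S ∪ W).card ≤ (sm z S).card + W.card := card_union_le _ _
  apply h2
  refine ⟨?_, d5, ?_, ?_⟩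
  · unfold RR
    rw [mem_filter]
    exact ⟨h1, d3, d1, d2, d4.1, d4.2⟩
  · have := d4.1
    omega
  · intro U hU U' hU' hne
    have h3 := c6 (U, U') (by
      unfold prU
      rw [mem_filter, mem_product]
      exact ⟨⟨hU, hU'⟩, hne⟩)
    have h4 : ¬ ((la z S).filter fun p => p % 8 = 1 ∧
        ∑ u ∈ symmDiff U U', nr p u ≠ 0).card < 2 * (sm z S).card + (2 * W.card + R) := by
      intro h
      apply h3
      unfold few
      rw [mem_filter]
      exact ⟨h1, h⟩
    omega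

theorem sml_sum {α : Type} {t : ℝ} (s : Finset α) (E : α → ℕ → ℝ) (h : ∀ a ∈ s, Sml t (E a)) :
    Sml t fun X => ∑ a ∈ s, E a X := by
  induction s using Finset.induction_on with
  | empty =>
    intro δ hδ
    filter_upwards with X
    rw [sum_empty]
    positivity
  | insert a s ha ih =>
    have h1 := sml_add (h a (mem_insert_self a s)) (ih fun b hb => h b (mem_insert_of_mem hb))
    refine fun δ hδ => (h1 δ hδ).mono fun X hX => ?_
    show ∑ b ∈ insert a s, E b X ≤ _
    rw [sum_insert ha]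
    exact hX

theorem t_JDQ (h1 : S_BIL) (h3 : S_EQ) (h4 : S_JLA) (h5 : S_JBOX)
    (hK : S_JKEY) (hC : CntP) (hS : S_SIE) (hH : S_HAL) (hB : S_JBAD) (hF : S_FEW) (hJM : S_JMER)
    (hJF : S_JFEW) (hM : S_MER) (hCh : S_CHE) (hLo : S_LOW) (hc2 : S_C2) : S_JDQ := by
  intro I K f W 𝒰 hO hW
  obtain ⟨c, X₀, hc, hlow⟩ := hLo hM hCh I K hO
  obtain ⟨δB, CB, XB, hδB, hbad⟩ := hB hS hH hM I K W hO hW.1
  have hdp := dl_pos hO
  have hdl := dl_lt hO
  rw [Metric.tendsto_nhds]
  intro ε hε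
  obtain ⟨R, C, hC1, hkey⟩ := hK h1 h3 h4 h5 𝒰.card (ε / 4) (by linarith)
  set V : ℕ := 2 * W.card + R with hV
  obtain ⟨CF, XF, hfew⟩ := hF hS hM I K V hO
  have s1 := sml_many hO (t := 1 - dl I) (by linarith) hC
  have s2 := sml_cut hO (t := 1 - dl I) (by linarith) hC
  have s3 := sml_coll hO (t := 1 - dl I) (by linarith) hC
  have s4 := sml_rpow (t := 1 - dl I) (by linarith) hfew
  have s5 := sml_rpow (t := 1 - dl I) (by linarith) hbad
  have s6 := sml_mainJ hC1 (t := 1 - dl I) (by linarith)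
  have s7 : Sml (1 - dl I) fun X => ∑ e ∈ prU 𝒰,
      ((few I K X (zz X) V (symmDiff e.1 e.2)).card : ℝ) := by
    refine sml_sum _ _ fun e he => ?_
    unfold prU at he
    rw [mem_filter, mem_product] at he
    have hne : (symmDiff e.1 e.2).Nonempty := by
      rw [Finset.nonempty_iff_ne_empty]
      intro h
      exact he.2 (symmDiff_eq_bot.1 h)
    have hsub : ∀ u ∈ symmDiff e.1 e.2, u ∈ W := by
      intro u hu
      rw [mem_symmDiff] at hu
      rcases hu with hu | hu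
      · exact hW.2 _ he.1.1 hu.1
      · exact hW.2 _ he.1.2 hu.1
    obtain ⟨δ, C', X', hδ, h⟩ := hJF hS hM hJM I K (symmDiff e.1 e.2) V hO hne
      (fun u hu => hW.1 u (hsub u hu))
    exact sml_rpow (t := 1 - dl I) (by linarith) h
  have s := sml_add (sml_add (sml_add (sml_add (sml_add (sml_add s1 s2) s3) s4) s5) s6) s7
  have hδ : (0 : ℝ) < c * ε / 4 := by positivity
  obtain ⟨WB, hWB⟩ : ∃ B : ℕ, ∀ u ∈ W, u ≤ B := ⟨W.sup id, fun u hu => Finset.le_sup (f := id) hu⟩
  have hzt : ∀ᶠ X : ℕ in atTop, WB ≤ zz X := by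
    filter_upwards [ev_eL (WB + 1)] with X hX
    have h0 : (1 : ℝ) ≤ eL X := by
      have : (0 : ℝ) ≤ WB := Nat.cast_nonneg _
      linarith
    unfold zz
    apply Nat.le_floor
    have h2 : (WB : ℝ) ≤ (eL X) ^ 3 := by
      have h3 : (1 : ℝ) * eL X ≤ (eL X) ^ 2 * eL X := by
        apply mul_le_mul_of_nonneg_right _ (by linarith)
        nlinarith
      have h4 : (eL X) ^ 3 = (eL X) ^ 2 * eL X := by ring
      linarith
    have h3 := Real.add_one_le_exp ((eL X) ^ 3)
    linarith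
  have hkt : ∀ᶠ X : ℕ in atTop, W.card ≤ kk X := by
    filter_upwards [ev_eL (W.card + 1)] with X hX
    have h2 := kk_ge X
    have h0 : (0 : ℝ) ≤ W.card := Nat.cast_nonneg _
    have : (W.card : ℝ) ≤ kk X := by linarith
    exact_mod_cast this
  filter_upwards [s (c * ε / 4) hδ, ev_eL 1, eventually_ge_atTop X₀, hzt, hkt] with X hX hl hX0 hz hk
  have hl0 : 0 < eL X := by linarith
  have hlo := hlow X hX0
  have e00 : (-1 + dl I : ℝ) = -(1 - dl I) := by ring
  rw [e00, rpow_eL hl0] at hlo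
  have hXp := X_pos hl0
  have hXp' : (0 : ℝ) < X := by exact_mod_cast hXp
  have hSpos : (0 : ℝ) < ((SS I K X).card : ℝ) := by
    refine lt_of_lt_of_le ?_ hlo
    positivity
  have hN : (HH X : ℝ) * Real.log X < NN X := by
    unfold NN
    push_cast
    exact Nat.lt_floor_add_one _
  have hmain := hkey I K f X (zz X) (HH X) (kk X) V (NN X) (kap C X) W 𝒰 rfl hW
    (fun u hu => (hWB u hu).trans hz) hk hO hXp (HH_pos hl0) (zz_pos hl)
    (kap_nonneg hC1 X) (kap_pow hC1 hl) hN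
  set T := (RR I K X (zz X) (HH X) (kk X) V).filter fun S =>
    NdJ R W 𝒰 (sm (zz X) S) (la (zz X) S) with hT
  have hTG : (RR I K X (zz X) (HH X) (kk X) V).filter
      (fun S => NdJ R W 𝒰 (sm (zz X) S) (la (zz X) S) ∧ GdJ f 𝒰 S) = T.filter (GdJ f 𝒰) := by
    rw [hT, filter_filter]
  rw [hTG] at hmain
  have hTS : T ⊆ SS I K X := (filter_subset _ _).trans (filter_subset _ _)
  have hRS : ((RR I K X (zz X) (HH X) (kk X) V).card : ℝ) ≤ ((SS I K X).card : ℝ) := by
    exact_mod_cast card_le_card (filter_subset _ _)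
  have hp0 : 0 ≤ c2 ^ 𝒰.card := pow_nonneg hc2.2.1.le _
  have hp1 : c2 ^ 𝒰.card ≤ 1 := pow_le_one₀ hc2.2.1.le hc2.2.2.1.le
  have hcmp := cmp (GdJ f 𝒰) T (SS I K X) hTS (c2 ^ 𝒰.card) hp0 hp1
  have hout : ((SS I K X \ T).card : ℝ) ≤
      ((((SS I K X).filter fun S => kk X < S.card).card : ℝ) +
      (((SS I K X).filter fun S => S.card ≤ kk X ∧
        X < (∏ p ∈ sm (zz X) S, p) * ∏ p ∈ la (zz X) S, XX (HH X) (jj (HH X) p)).card : ℝ) +
      (((SS I K X).filter fun S => ¬ Set.InjOn (jj (HH X)) (la (zz X) S : Set ℕ)).card : ℝ) +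
      (((SS I K X).filter fun S => ((la (zz X) S).filter fun p => p % 8 = 1).card ≤
        2 * (sm (zz X) S).card + V ∨ ∀ p ∈ la (zz X) S, p % 8 = 1).card : ℝ)) +
      (((SS I K X).filter fun S => S.card ≤ kk X ∧
        ¬ Nd (sm (zz X) S ∪ W) (la (zz X) S)).card : ℝ) +
      ∑ e ∈ prU 𝒰, ((few I K X (zz X) V (symmDiff e.1 e.2)).card : ℝ) := by
    have g := card_le_card (out_subJ I K W 𝒰 X (zz X) (HH X) (kk X) R)
    rw [← hV, ← hT] at g
    have g3 := Finset.card_biUnion_le (s := prU 𝒰)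
      (t := fun e => few I K X (zz X) V (symmDiff e.1 e.2))
    have g2 := ((g.trans (card_union_le _ _)).trans (Nat.add_le_add_right
      ((card_union_le _ _).trans (Nat.add_le_add_right ((card_union_le _ _).trans
      (Nat.add_le_add_right ((card_union_le _ _).trans
      (Nat.add_le_add_right (card_union_le _ _) _)) _)) _)) _)).trans (Nat.add_le_add_left g3 _)
    exact_mod_cast g2
  have htot : |(((SS I K X).filter (GdJ f 𝒰)).card : ℝ) - c2 ^ 𝒰.card * ((SS I K X).card : ℝ)| ≤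
      ε / 4 * ((SS I K X).card : ℝ) +
        c * ε / 4 * (X * Real.exp (-(1 - dl I) * eL X)) := by
    have g1 : ε / 4 * ((RR I K X (zz X) (HH X) (kk X) V).card : ℝ) ≤
        ε / 4 * ((SS I K X).card : ℝ) := mul_le_mul_of_nonneg_left hRS (by positivity)
    linarith
  rw [Real.dist_eq]
  have e3 : (((SS I K X).filter (GdJ f 𝒰)).card : ℝ) / ((SS I K X).card : ℝ) - c2 ^ 𝒰.card =
      ((((SS I K X).filter (GdJ f 𝒰)).card : ℝ) - c2 ^ 𝒰.card * ((SS I K X).card : ℝ)) /
        ((SS I K X).card : ℝ) := by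
    field_simp
  rw [e3, abs_div, abs_of_pos hSpos, div_lt_iff₀ hSpos]
  refine lt_of_le_of_lt htot ?_
  have g2 : c * ε / 4 * (X * Real.exp (-(1 - dl I) * eL X)) ≤ ε / 4 * ((SS I K X).card : ℝ) := by
    calc c * ε / 4 * (X * Real.exp (-(1 - dl I) * eL X)) =
          ε / 4 * (c * X * Real.exp (-(1 - dl I) * eL X)) := by ring
      _ ≤ _ := mul_le_mul_of_nonneg_left hlo (by linarith)
  have g4 : 0 < ε * ((SS I K X).card : ℝ) := by positivity
  linarith

end Pool.Agent.Y687.JQ
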